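import Pool.Agent.E8helper27.Sow.Defs

/-!
# Sowing: an evaluator for list positions
-/

set_option autoImplicit false

namespace Pool.Agent.E8helper38.Sow

open SowingH27

/-- empty pot `z`, add one seed to the pots `lo..hi` -/
def sowA (lo hi z : ℕ) : ℕ → List ℕ → List ℕ
  | _, [] => []
  | j, x :: xs =>
    (bif Nat.beq j z then 0 else bif (Nat.ble lo j && Nat.ble j hi) then x + 1 else x) ::
      sowA lo hi z (j + 1) xs

/-- list all `f i k` for the pots `i` with `k` seeds satisfying `c i k` -/
def scan (c : ℕ → ℕ → Bool) (f : ℕ → ℕ → List ℕ) : ℕ → List ℕ → List (List ℕ)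
  | _, [] => []
  | i, k :: xs => bif c i k then f i k :: scan c f (i + 1) xs else scan c f (i + 1) xs

/-- the moves of Left -/
def leftMoves (l : List ℕ) : List (List ℕ) :=
  scan (fun i k => !(Nat.beq k 0) && (Nat.ble (i + k + 1) l.length &&
    !(Nat.beq (l.getD (i + k) 0) 0))) (fun i k => sowA (i + 1) (i + k) i 0 l) 0 l

/-- the moves of Right -/
def rightMoves (l : List ℕ) : List (List ℕ) :=
  scan (fun i k => !(Nat.beq k 0) && (Nat.ble k i &&
    !(Nat.beq (l.getD (i - k) 0) 0))) (fun i k => sowA (i - k) i i 0 l) 0 l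

/-- the moves of Left in a sum of games -/
def gameL : List Game → List (List Game)
  | [] => []
  | G :: xs => G.left.map (fun H => H :: xs) ++ (gameL xs).map (fun y => G :: y)

/-- the moves of Right in a sum of games -/
def gameR : List Game → List (List Game)
  | [] => []
  | G :: xs => G.right.map (fun H => H :: xs) ++ (gameR xs).map (fun y => G :: y)

/-- evaluation of a number before it is used -/
def forceNat {β : Type} (x : ℕ) (k : ℕ → β) : β :=
  match x with
  | 0 => k 0
  | n + 1 => k (n + 1)

/-- evaluation of a list before it is used -/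
def forceList {β : Type} : List ℕ → (List ℕ → β) → β
  | [], k => k []
  | x :: xs, k => forceNat x (fun x' => forceList xs (fun xs' => k (x' :: xs')))

/-- Left has a good answer -/
def ansL (f : List ℕ → List Game → Bool) (l : List ℕ) (G : List Game) : Bool :=
  (leftMoves l).any (fun m => forceList m (fun m' => f m' G)) || (gameR G).any (fun H => f l H)

/-- Right has a good answer -/
def ansR (f : List ℕ → List Game → Bool) (l : List ℕ) (G : List Game) : Bool :=
  (rightMoves l).any (fun m => forceList m (fun m' => f m' G)) || (gameL G).any (fun H => f l H)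

/-- Right moves first and Left wins with at most `n` moves -/
def ls : ℕ → List ℕ → List Game → Bool
  | 0, l, G => (rightMoves l).isEmpty && (gameL G).isEmpty
  | n + 1, l, G =>
    (rightMoves l).all (fun m => forceList m (fun m' => ansL (ls n) m' G)) &&
      (gameL G).all (fun H => ansL (ls n) l H)

/-- Left moves first and Right wins with at most `n` moves -/
def rs : ℕ → List ℕ → List Game → Bool
  | 0, l, G => (leftMoves l).isEmpty && (gameR G).isEmpty
  | n + 1, l, G =>
    (leftMoves l).all (fun m => forceList m (fun m' => ansR (rs n) m' G)) &&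
      (gameR G).all (fun H => ansR (rs n) l H)

/-! ## Lemmas -/

theorem forceNat_eq {β : Type} (x : ℕ) (k : ℕ → β) : forceNat x k = k x := by
  cases x <;> rfl

theorem forceList_eq {β : Type} (l : List ℕ) (k : List ℕ → β) : forceList l k = k l := by
  induction l generalizing k with
  | nil => rfl
  | cons x xs ih => simp only [forceList, forceNat_eq, ih]

theorem beq_false {a b : ℕ} (h : a ≠ b) : Nat.beq a b = false := by
  cases hh : Nat.beq a b with
  | false => rfl
  | true => exact absurd (Nat.eq_of_beq_eq_true hh) h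

theorem sowA_length (lo hi z s : ℕ) (l : List ℕ) : (sowA lo hi z s l).length = l.length := by
  induction l generalizing s with
  | nil => rfl
  | cons x xs ih => simp [sowA, ih]

theorem sowA_getD (lo hi z s : ℕ) (l : List ℕ) (j : ℕ) (hj : j < l.length) :
    (sowA lo hi z s l).getD j 0 = if s + j = z then 0 else
      if lo ≤ s + j ∧ s + j ≤ hi then l.getD j 0 + 1 else l.getD j 0 := by
  induction l generalizing s j with
  | nil => simp at hj
  | cons x xs ih =>
    cases j with
    | zero =>
      simp only [sowA, List.getD_cons_zero, Nat.add_zero]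
      by_cases h1 : s = z
      · simp [h1]
      · by_cases h2 : lo ≤ s ∧ s ≤ hi
        · have h3 : Nat.beq s z = false := beq_false h1
          have h4 : (Nat.ble lo s && Nat.ble s hi) = true := by
            simp only [Bool.and_eq_true, Nat.ble_eq]
            exact h2
          simp [h3, h1, h2, h4]
        · have h3 : Nat.beq s z = false := beq_false h1
          simp only [h3, h1, h2, cond_false, if_false]
          have h4 : (Nat.ble lo s && Nat.ble s hi) = false := by
            by_contra hc
            simp only [Bool.not_eq_false, Bool.and_eq_true, Nat.ble_eq] at hc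
            exact h2 hc
          simp [h4]
    | succ j =>
      simp only [sowA, List.getD_cons_succ]
      rw [ih (s + 1) j (by simpa using hj)]
      have h1 : s + 1 + j = s + (j + 1) := by ring
      simp only [h1]

theorem ofList_nat (l : List ℕ) (j : ℕ) : ofList l (j : ℤ) = l.getD j 0 := by
  simp [ofList]

theorem ofList_neg (l : List ℕ) (i : ℤ) (h : i < 0) : ofList l i = 0 := by
  simp [ofList, not_le.mpr h]

theorem getD_ge (l : List ℕ) (j : ℕ) (h : l.length ≤ j) : l.getD j 0 = 0 := by
  simp [List.getD, List.getElem?_eq_none h]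

theorem ofList_support (l : List ℕ) : (Function.support (ofList l)).Finite := by
  apply Set.Finite.subset (Set.finite_Icc (0 : ℤ) (l.length : ℤ))
  intro i hi
  simp only [Function.mem_support] at hi
  have h0 : 0 ≤ i := by
    by_contra h
    exact hi (ofList_neg l i (by omega))
  obtain ⟨a, rfl⟩ := Int.eq_ofNat_of_zero_le h0
  rw [ofList_nat] at hi
  have h1 : a < l.length := by
    by_contra h
    exact hi (getD_ge l a (by omega))
  simp only [Set.mem_Icc]
  omega

theorem sowRight_ofList (l : List ℕ) (a : ℕ) (h : a + l.getD a 0 < l.length) :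
    sowRight (ofList l) a = ofList (sowA (a + 1) (a + l.getD a 0) a 0 l) := by
  funext j
  rcases lt_or_ge j 0 with hj | hj
  · rw [ofList_neg _ j hj]
    simp only [sowRight]
    rw [if_neg (by omega), if_neg (by omega), ofList_neg _ j hj]
  · obtain ⟨b, rfl⟩ := Int.eq_ofNat_of_zero_le hj
    simp only [sowRight, ofList_nat]
    rcases lt_or_ge b l.length with hb | hb
    · rw [sowA_getD _ _ _ _ _ _ hb]
      split_ifs <;> first | rfl | (exfalso; omega)
    · rw [if_neg (by omega), if_neg (by omega), getD_ge l b hb,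
        getD_ge _ b (by rw [sowA_length]; exact hb)]

theorem sowLeft_ofList (l : List ℕ) (a : ℕ) (ha : a < l.length) (h : l.getD a 0 ≤ a) :
    sowLeft (ofList l) a = ofList (sowA (a - l.getD a 0) a a 0 l) := by
  funext j
  rcases lt_or_ge j 0 with hj | hj
  · rw [ofList_neg _ j hj]
    simp only [sowLeft, ofList_nat]
    rw [if_neg (by omega), if_neg (by omega), ofList_neg _ j hj]
  · obtain ⟨b, rfl⟩ := Int.eq_ofNat_of_zero_le hj
    simp only [sowLeft, ofList_nat]
    rcases lt_or_ge b l.length with hb | hb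
    · rw [sowA_getD _ _ _ _ _ _ hb]
      split_ifs <;> first | rfl | (exfalso; omega)
    · rw [if_neg (by omega), if_neg (by omega), getD_ge l b hb,
        getD_ge _ b (by rw [sowA_length]; exact hb)]

theorem mem_scan (c : ℕ → ℕ → Bool) (f : ℕ → ℕ → List ℕ) (i : ℕ) (xs : List ℕ) (m : List ℕ) :
    m ∈ scan c f i xs ↔
      ∃ j, j < xs.length ∧ c (i + j) (xs.getD j 0) = true ∧ m = f (i + j) (xs.getD j 0) := by
  induction xs generalizing i with
  | nil => simp [scan]
  | cons k xs ih =>
    have key : m ∈ scan c f i (k :: xs) ↔ (c i k = true ∧ m = f i k) ∨ m ∈ scan c f (i + 1) xs := by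
      cases hc : c i k <;> simp [scan, hc]
    rw [key, ih]
    constructor
    · rintro (⟨h1, h2⟩ | ⟨j, hj, h1, h2⟩)
      · exact ⟨0, by simp, by simpa using h1, by simpa using h2⟩
      · refine ⟨j + 1, by simpa using hj, ?_, ?_⟩
        · have : i + (j + 1) = i + 1 + j := by ring
          rw [this]; simpa using h1
        · have : i + (j + 1) = i + 1 + j := by ring
          rw [this]; simpa using h2
    · rintro ⟨j, hj, h1, h2⟩
      cases j with
      | zero => left; exact ⟨by simpa using h1, by simpa using h2⟩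
      | succ j =>
        right
        have e : i + (j + 1) = i + 1 + j := by ring
        rw [e] at h1 h2
        exact ⟨j, by simpa using hj, by simpa using h1, by simpa using h2⟩

theorem mem_leftMoves (l : List ℕ) (q : ℤ → ℕ) :
    sowing.L (ofList l) q ↔ ∃ m ∈ leftMoves l, q = ofList m := by
  constructor
  · rintro ⟨i, h1, h2, rfl⟩
    have h0 : 0 ≤ i := by
      by_contra h
      exact h1 (ofList_neg l i (by omega))
    obtain ⟨a, rfl⟩ := Int.eq_ofNat_of_zero_le h0
    rw [ofList_nat] at h1 h2
    have ha : a < l.length := by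
      by_contra h
      exact h1 (getD_ge l a (by omega))
    have e : ((a : ℤ) + (l.getD a 0 : ℕ)) = ((a + l.getD a 0 : ℕ) : ℤ) := by push_cast; ring
    rw [e, ofList_nat] at h2
    have hb : a + l.getD a 0 < l.length := by
      by_contra h
      exact h2 (getD_ge l _ (by omega))
    refine ⟨sowA (a + 1) (a + l.getD a 0) a 0 l, ?_, sowRight_ofList l a hb⟩
    rw [leftMoves, mem_scan]
    refine ⟨a, ha, ?_, ?_⟩
    · simp only [Nat.zero_add, Bool.and_eq_true, Bool.not_eq_true', Nat.ble_eq]
      exact ⟨beq_false h1, by omega, beq_false h2⟩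
    · simp only [Nat.zero_add]
  · rintro ⟨m, hm, rfl⟩
    rw [leftMoves, mem_scan] at hm
    obtain ⟨a, ha, h1, rfl⟩ := hm
    simp only [Nat.zero_add, Bool.and_eq_true, Bool.not_eq_true', Nat.ble_eq] at h1 ⊢
    obtain ⟨h1, h2, h3⟩ := h1
    have h1' : l.getD a 0 ≠ 0 := by
      intro h; rw [h] at h1; simp at h1
    have h3' : l.getD (a + l.getD a 0) 0 ≠ 0 := by
      intro h; rw [h] at h3; simp at h3
    refine ⟨a, by rw [ofList_nat]; exact h1', ?_, (sowRight_ofList l a (by omega)).symm⟩
    have e : ((a : ℤ) + (l.getD a 0 : ℕ)) = ((a + l.getD a 0 : ℕ) : ℤ) := by push_cast; ring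
    rw [ofList_nat, e, ofList_nat]
    exact h3'

theorem mem_rightMoves (l : List ℕ) (q : ℤ → ℕ) :
    sowing.R (ofList l) q ↔ ∃ m ∈ rightMoves l, q = ofList m := by
  constructor
  · rintro ⟨i, h1, h2, rfl⟩
    have h0 : 0 ≤ i := by
      by_contra h
      exact h1 (ofList_neg l i (by omega))
    obtain ⟨a, rfl⟩ := Int.eq_ofNat_of_zero_le h0
    rw [ofList_nat] at h1 h2
    have ha : a < l.length := by
      by_contra h
      exact h1 (getD_ge l a (by omega))
    have hb : l.getD a 0 ≤ a := by
      by_contra h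
      exact h2 (ofList_neg l _ (by omega))
    have e : ((a : ℤ) - (l.getD a 0 : ℕ)) = ((a - l.getD a 0 : ℕ) : ℤ) := by omega
    rw [e, ofList_nat] at h2
    refine ⟨sowA (a - l.getD a 0) a a 0 l, ?_, sowLeft_ofList l a ha hb⟩
    rw [rightMoves, mem_scan]
    refine ⟨a, ha, ?_, ?_⟩
    · simp only [Nat.zero_add, Bool.and_eq_true, Bool.not_eq_true', Nat.ble_eq]
      exact ⟨beq_false h1, hb, beq_false h2⟩
    · simp only [Nat.zero_add]
  · rintro ⟨m, hm, rfl⟩
    rw [rightMoves, mem_scan] at hm
    obtain ⟨a, ha, h1, rfl⟩ := hm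
    simp only [Nat.zero_add, Bool.and_eq_true, Bool.not_eq_true', Nat.ble_eq] at h1 ⊢
    obtain ⟨h1, h2, h3⟩ := h1
    have h1' : l.getD a 0 ≠ 0 := by
      intro h; rw [h] at h1; simp at h1
    have h3' : l.getD (a - l.getD a 0) 0 ≠ 0 := by
      intro h; rw [h] at h3; simp at h3
    refine ⟨a, by rw [ofList_nat]; exact h1', ?_, (sowLeft_ofList l a ha h2).symm⟩
    have e : ((a : ℤ) - (l.getD a 0 : ℕ)) = ((a - l.getD a 0 : ℕ) : ℤ) := by omega
    rw [ofList_nat, e, ofList_nat]
    exact h3'

theorem mem_gameL (x y : List Game) : games.L x y ↔ y ∈ gameL x := by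
  induction x generalizing y with
  | nil =>
    simp only [gameL, List.not_mem_nil, iff_false]
    rintro ⟨a, G, b, H, h, -⟩
    simp at h
  | cons G xs ih =>
    simp only [gameL, List.mem_append, List.mem_map]
    constructor
    · rintro ⟨a, G', b, H, h, hH, rfl⟩
      cases a with
      | nil =>
        simp only [List.nil_append, List.cons.injEq] at h
        obtain ⟨rfl, rfl⟩ := h
        left; exact ⟨H, hH, rfl⟩
      | cons A a =>
        simp only [List.cons_append, List.cons.injEq] at h
        obtain ⟨rfl, rfl⟩ := h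
        right
        exact ⟨a ++ H :: b, (ih _).mp ⟨a, G', b, H, rfl, hH, rfl⟩, rfl⟩
    · rintro (⟨H, hH, rfl⟩ | ⟨z, hz, rfl⟩)
      · exact ⟨[], G, xs, H, rfl, hH, rfl⟩
      · obtain ⟨a, G', b, H, rfl, hH, rfl⟩ := (ih z).mpr hz
        exact ⟨G :: a, G', b, H, rfl, hH, rfl⟩

theorem mem_gameR (x y : List Game) : games.R x y ↔ y ∈ gameR x := by
  induction x generalizing y with
  | nil =>
    simp only [gameR, List.not_mem_nil, iff_false]
    rintro ⟨a, G, b, H, h, -⟩
    simp at h
  | cons G xs ih =>
    simp only [gameR, List.mem_append, List.mem_map]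
    constructor
    · rintro ⟨a, G', b, H, h, hH, rfl⟩
      cases a with
      | nil =>
        simp only [List.nil_append, List.cons.injEq] at h
        obtain ⟨rfl, rfl⟩ := h
        left; exact ⟨H, hH, rfl⟩
      | cons A a =>
        simp only [List.cons_append, List.cons.injEq] at h
        obtain ⟨rfl, rfl⟩ := h
        right
        exact ⟨a ++ H :: b, (ih _).mp ⟨a, G', b, H, rfl, hH, rfl⟩, rfl⟩
    · rintro (⟨H, hH, rfl⟩ | ⟨z, hz, rfl⟩)
      · exact ⟨[], G, xs, H, rfl, hH, rfl⟩
      · obtain ⟨a, G', b, H, rfl, hH, rfl⟩ := (ih z).mpr hz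
        exact ⟨G :: a, G', b, H, rfl, hH, rfl⟩

theorem ansL_sound (f : List ℕ → List Game → Bool) (P : (ℤ → ℕ) × List Game → Prop)
    (hP : ∀ l G, f l G = true → P (ofList l, G)) (l : List ℕ) (G : List Game)
    (h : ansL f l G = true) : ∃ z, (sowing.sub games).L (ofList l, G) z ∧ P z := by
  simp only [ansL, Bool.or_eq_true, List.any_eq_true, forceList_eq] at h
  rcases h with ⟨m, hm, h⟩ | ⟨H, hH, h⟩
  · exact ⟨(ofList m, G), Or.inl ⟨(mem_leftMoves l _).mpr ⟨m, hm, rfl⟩, rfl⟩, hP m G h⟩
  · exact ⟨(ofList l, H), Or.inr ⟨rfl, (mem_gameR G H).mpr hH⟩, hP l H h⟩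

theorem ansR_sound (f : List ℕ → List Game → Bool) (P : (ℤ → ℕ) × List Game → Prop)
    (hP : ∀ l G, f l G = true → P (ofList l, G)) (l : List ℕ) (G : List Game)
    (h : ansR f l G = true) : ∃ z, (sowing.sub games).R (ofList l, G) z ∧ P z := by
  simp only [ansR, Bool.or_eq_true, List.any_eq_true, forceList_eq] at h
  rcases h with ⟨m, hm, h⟩ | ⟨H, hH, h⟩
  · exact ⟨(ofList m, G), Or.inl ⟨(mem_rightMoves l _).mpr ⟨m, hm, rfl⟩, rfl⟩, hP m G h⟩
  · exact ⟨(ofList l, H), Or.inr ⟨rfl, (mem_gameL G H).mpr hH⟩, hP l H h⟩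

theorem ls_sound (n : ℕ) (l : List ℕ) (G : List Game) (h : ls n l G = true) :
    (sowing.sub games).LeftSecond n (ofList l, G) := by
  induction n generalizing l G with
  | zero =>
    simp only [ls, Bool.and_eq_true, List.isEmpty_iff] at h
    rintro ⟨y1, y2⟩ (⟨h1, -⟩ | ⟨-, h1⟩)
    · obtain ⟨m, hm, -⟩ := (mem_rightMoves l y1).mp h1
      rw [h.1] at hm; simp at hm
    · have := (mem_gameL G y2).mp h1
      rw [h.2] at this; simp at this
  | succ n ih =>
    simp only [ls, Bool.and_eq_true, List.all_eq_true, forceList_eq] at h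
    rintro ⟨y1, y2⟩ (⟨h1, h2⟩ | ⟨h2, h1⟩)
    · simp only at h1 h2
      obtain ⟨m, hm, rfl⟩ := (mem_rightMoves l y1).mp h1
      subst h2
      exact ansL_sound (ls n) _ ih m y2 (h.1 m hm)
    · simp only at h1 h2
      subst h2
      exact ansL_sound (ls n) _ ih l y2 (h.2 y2 ((mem_gameL G y2).mp h1))

theorem rs_sound (n : ℕ) (l : List ℕ) (G : List Game) (h : rs n l G = true) :
    (sowing.sub games).RightSecond n (ofList l, G) := by
  induction n generalizing l G with
  | zero =>
    simp only [rs, Bool.and_eq_true, List.isEmpty_iff] at h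
    rintro ⟨y1, y2⟩ (⟨h1, -⟩ | ⟨-, h1⟩)
    · obtain ⟨m, hm, -⟩ := (mem_leftMoves l y1).mp h1
      rw [h.1] at hm; simp at hm
    · have := (mem_gameR G y2).mp h1
      rw [h.2] at this; simp at this
  | succ n ih =>
    simp only [rs, Bool.and_eq_true, List.all_eq_true, forceList_eq] at h
    rintro ⟨y1, y2⟩ (⟨h1, h2⟩ | ⟨h2, h1⟩)
    · simp only at h1 h2
      obtain ⟨m, hm, rfl⟩ := (mem_leftMoves l y1).mp h1
      subst h2
      exact ansR_sound (rs n) _ ih m y2 (h.1 m hm)
    · simp only at h1 h2
      subst h2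
      exact ansR_sound (rs n) _ ih l y2 (h.2 y2 ((mem_gameR G y2).mp h1))

/-- The evaluation criterion: `by exact hasValue_of_eval n m l G (by decide +kernel) (by decide +kernel)`. -/
theorem hasValue_of_eval (n m : ℕ) (l : List ℕ) (G : List Game) (h1 : ls n l G = true)
    (h2 : rs m l G = true) : HasValue (ofList l) G :=
  ⟨ofList_support l, ⟨n, ls_sound n l G h1⟩, ⟨m, rs_sound m l G h2⟩⟩

end Pool.Agent.E8helper38.Sow
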