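import Pool.Agent.E8helper38.Sow.Eval

set_option autoImplicit false

namespace Pool.Agent.E8helper38.Sow

open SowingH27

theorem t_UP : S_UP := hasValue_of_eval 6 6 _ _ (by decide +kernel) (by decide +kernel)

theorem t_TINY1 : S_TINY1 := hasValue_of_eval 8 8 _ _ (by decide +kernel) (by decide +kernel)

theorem t_NIM1 : S_NIM1 := hasValue_of_eval 4 4 _ _ (by decide +kernel) (by decide +kernel)

theorem t_NIM2 : S_NIM2 := hasValue_of_eval 8 8 _ _ (by decide +kernel) (by decide +kernel)

end Pool.Agent.E8helper38.Sow
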